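import Pool.Agent.Lib.MP_fa837f_gt.P2.Iface

/-!
Project P2, row WS: inequalities of Schur type.
-/

set_option autoImplicit false

open Matrix

namespace Pool.Agent.Lib.MP_fa837f_gt.P2.H88

open Pool.Agent.Lib.MP_fa837f_gt.P2

variable {n k : ℕ}

theorem scal (m : Fin n → Fin k → ℝ) (r : Fin n → ℝ) (hr : ∀ i, 0 < r i) (hB : BFacts m r)
    (u : Fin n → ℝ) :
    0 ≤ ∑ i, ∑ j, be m r i j * (u i * u j) ∧
      ∑ i, ∑ j, be m r i j * (u i * u j) ≤ ∑ i, u i * u i / r i := by
  have h1 : ∑ i, ∑ j, be m r i j * (u i * u j) = ∑ l, r l * (∑ i, be m r l i * u i) ^ 2 := by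
    have e1 : ∀ l, r l * (∑ i, be m r l i * u i) ^ 2 =
        ∑ i, ∑ j, (be m r i l * r l * be m r l j) * (u i * u j) := by
      intro l
      rw [pow_two, Finset.sum_mul_sum, Finset.mul_sum]
      refine Finset.sum_congr rfl fun i _ => ?_
      rw [Finset.mul_sum]
      refine Finset.sum_congr rfl fun j _ => ?_
      rw [hB.symm l i]; ring
    simp only [e1]
    symm
    rw [Finset.sum_comm]
    refine Finset.sum_congr rfl fun i _ => ?_
    rw [Finset.sum_comm]
    refine Finset.sum_congr rfl fun j _ => ?_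
    rw [← Finset.sum_mul, hB.proj]
  have h2 : ∑ i, ∑ j, be m r i j * (u i * u j) = ∑ l, u l * (∑ i, be m r l i * u i) := by
    refine Finset.sum_congr rfl fun i _ => ?_
    rw [Finset.mul_sum]
    refine Finset.sum_congr rfl fun j _ => ?_
    ring
  constructor
  · rw [h1]
    exact Finset.sum_nonneg fun l _ => mul_nonneg (hr l).le (sq_nonneg _)
  · have h3 : 0 ≤ ∑ l, (u l - r l * ∑ i, be m r l i * u i) ^ 2 / r l :=
      Finset.sum_nonneg fun l _ => div_nonneg (sq_nonneg _) (hr l).le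
    have h4 : ∑ l, (u l - r l * ∑ i, be m r l i * u i) ^ 2 / r l =
        ∑ l, u l * u l / r l - 2 * ∑ l, u l * (∑ i, be m r l i * u i) +
          ∑ l, r l * (∑ i, be m r l i * u i) ^ 2 := by
      rw [Finset.mul_sum, ← Finset.sum_sub_distrib, ← Finset.sum_add_distrib]
      refine Finset.sum_congr rfl fun l _ => ?_
      have := (hr l).ne'
      field_simp
      ring
    rw [h4, ← h2, ← h1] at h3
    linarith

theorem vect (m : Fin n → Fin k → ℝ) (r : Fin n → ℝ) (hr : ∀ i, 0 < r i) (hB : BFacts m r)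
    (κ : Type) [Fintype κ] (V : Fin n → κ → ℝ) :
    0 ≤ ∑ i, ∑ j, be m r i j * (V i ⬝ᵥ V j) ∧
      ∑ i, ∑ j, be m r i j * (V i ⬝ᵥ V j) ≤ ∑ i, (V i ⬝ᵥ V i) / r i := by
  have h1 : ∑ i, ∑ j, be m r i j * (V i ⬝ᵥ V j) =
      ∑ s, ∑ i, ∑ j, be m r i j * (V i s * V j s) := by
    symm
    rw [Finset.sum_comm]
    refine Finset.sum_congr rfl fun i _ => ?_
    rw [Finset.sum_comm]
    refine Finset.sum_congr rfl fun j _ => ?_
    rw [dotProduct, Finset.mul_sum]
  have h2 : ∑ i, (V i ⬝ᵥ V i) / r i = ∑ s, ∑ i, V i s * V i s / r i := by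
    symm
    rw [Finset.sum_comm]
    refine Finset.sum_congr rfl fun i _ => ?_
    rw [dotProduct, Finset.sum_div]
  rw [h1, h2]
  exact ⟨Finset.sum_nonneg fun s _ => (scal m r hr hB fun i => V i s).1,
    Finset.sum_le_sum fun s _ => (scal m r hr hB fun i => V i s).2⟩

theorem ws_st (hWa : WaStatement) : WsStatement := by
  intro n k m r hm hr κ _ V
  have hB := hWa n k m r hm hr
  have hW : ∀ i j, (fun p : Fin n × κ => Real.sqrt (r p.1) * be m r i p.1 * V i p.2) ⬝ᵥ
      (fun p : Fin n × κ => Real.sqrt (r p.1) * be m r j p.1 * V j p.2) =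
      be m r i j * (V i ⬝ᵥ V j) := by
    intro i j
    rw [dotProduct, Fintype.sum_prod_type]
    have e1 : ∀ l, ∑ s, Real.sqrt (r l) * be m r i l * V i s *
        (Real.sqrt (r l) * be m r j l * V j s) =
        be m r i l * r l * be m r l j * (V i ⬝ᵥ V j) := by
      intro l
      rw [dotProduct, Finset.mul_sum]
      refine Finset.sum_congr rfl fun s _ => ?_
      have h0 := Real.mul_self_sqrt (hr l).le
      rw [hB.symm l j]
      linear_combination (be m r i l * V i s * be m r j l * V j s) * h0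
    simp only [e1]
    rw [← Finset.sum_mul, hB.proj]
  have h3 := vect m r hr hB (Fin n × κ)
    (fun i p => Real.sqrt (r p.1) * be m r i p.1 * V i p.2)
  simp only [hW] at h3
  have h4 : ∑ i, ∑ j, be m r i j * (be m r i j * (V i ⬝ᵥ V j)) =
      ∑ i, ∑ j, be m r i j ^ 2 * (V i ⬝ᵥ V j) :=
    Finset.sum_congr rfl fun i _ => Finset.sum_congr rfl fun j _ => by ring
  rw [h4] at h3
  exact ⟨(vect m r hr hB κ V).1, (vect m r hr hB κ V).2, h3.1, h3.2⟩

end Pool.Agent.Lib.MP_fa837f_gt.P2.H88
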